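import Pool.Agent.Helper87.TC.Lib

set_option autoImplicit false

namespace Pool.Agent.Helper87.TC

open MvPolynomial Pool.Agent.Helper48.VMRT Pool.Agent.Helper87.VM

section

variable {κα κβ : Type}

theorem chart_inl (y : κα ⊕ κβ → ℂ) (I : Fin 3 → κα) (l : κβ) :
    ev Psi y (Sum.inl (I, l)) = pl y (I 0) * pl y (I 1) * pl y (I 2) * qr y l := by
  rw [ev_Psi]
  simp [Theta]

theorem chart_inr (y : κα ⊕ κβ → ℂ) (i : κα) (J : Fin 3 → κβ) :
    ev Psi y (Sum.inr (i, J)) = pl y i * (qr y (J 0) * qr y (J 1) * qr y (J 2)) := by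
  rw [ev_Psi]
  simp [Theta]

theorem chart_eval {S : Set (κα ⊕ κβ → ℂ)} {w : KK κα κβ → ℂ} (hw : w ∈ Cl (ev Psi '' S))
    (P Q : MvPolynomial (KK κα κβ) ℂ) (h : ∀ y, eval (ev Psi y) P = eval (ev Psi y) Q) :
    eval w P = eval w Q := by
  have h1 := mem_Cl.1 hw (P - Q) (mem_vI.2 (by
    rintro _ ⟨y, _, rfl⟩
    rw [map_sub, h y, sub_self]))
  rw [map_sub, sub_eq_zero] at h1
  exact h1

theorem chart_dpol [Fintype κα] [Fintype κβ] {S : Set (κα ⊕ κβ → ℂ)} {w v : KK κα κβ → ℂ}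
    (hv : v ∈ tsp (Cl (ev Psi '' S)) w)
    (P Q : MvPolynomial (KK κα κβ) ℂ) (h : ∀ y, eval (ev Psi y) P = eval (ev Psi y) Q) :
    dpol P w v = dpol Q w v := by
  have h1 := hv (P - Q) (by
    rw [vI_Cl, mem_vI]
    rintro _ ⟨y, _, rfl⟩
    rw [map_sub, h y, sub_self])
  rw [dpol_sub, sub_eq_zero] at h1
  exact h1

/-- the first identity -/
theorem chart_id1 (i₀ : κα) (l₀ : κβ) (I : Fin 3 → κα) (l : κβ) (y : κα ⊕ κβ → ℂ) :
    eval (ev Psi y) (X (Sum.inl (I, l)) * (X (Sum.inl (fun _ => i₀, l₀)) *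
      X (Sum.inl (fun _ => i₀, l₀)) * X (Sum.inl (fun _ => i₀, l₀))) :
      MvPolynomial (KK κα κβ) ℂ) =
    eval (ev Psi y) (X (Sum.inl (![i₀, i₀, I 0], l₀)) * X (Sum.inl (![i₀, i₀, I 1], l₀)) *
      X (Sum.inl (![i₀, i₀, I 2], l₀)) * X (Sum.inl (fun _ => i₀, l)) :
      MvPolynomial (KK κα κβ) ℂ) := by
  simp only [map_mul, eval_X, chart_inl, Matrix.cons_val_zero, Matrix.cons_val_one,
    Matrix.cons_val]
  ring

/-- the second identity -/
theorem chart_id2 (i₀ : κα) (l₀ : κβ) (i : κα) (J : Fin 3 → κβ) (y : κα ⊕ κβ → ℂ) :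
    eval (ev Psi y) (X (Sum.inr (i, J)) * (X (Sum.inl (fun _ => i₀, l₀)) *
      X (Sum.inl (fun _ => i₀, l₀)) * X (Sum.inl (fun _ => i₀, l₀)) *
      X (Sum.inl (fun _ => i₀, l₀))) : MvPolynomial (KK κα κβ) ℂ) =
    eval (ev Psi y) (X (Sum.inl (![i₀, i₀, i], l₀)) * (X (Sum.inl (fun _ => i₀, J 0)) *
      X (Sum.inl (fun _ => i₀, J 1)) * X (Sum.inl (fun _ => i₀, J 2))) *
      X (Sum.inr (i₀, fun _ => l₀)) : MvPolynomial (KK κα κβ) ℂ) := by
  simp only [map_mul, eval_X, chart_inl, chart_inr, Matrix.cons_val_zero, Matrix.cons_val_one,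
    Matrix.cons_val]
  ring

theorem chart_const (i : κα) : (![i, i, i] : Fin 3 → κα) = fun _ => i := by
  funext j
  fin_cases j <;> rfl

end

theorem st_CHART : ST_CHART := by
  intro κα κβ _ _ S w hw
  have key1 : ∀ a, w (Sum.inl a) ≠ 0 →
      ∃ (i₀ : κα) (l₀ : κβ), w (Sum.inl (fun _ => i₀, l₀)) ≠ 0 := by
    rintro ⟨I, l⟩ ha
    have h := chart_eval hw (X (Sum.inl (I, l)) * X (Sum.inl (I, l)) * X (Sum.inl (I, l)))
      (X (Sum.inl (fun _ => I 0, l)) * X (Sum.inl (fun _ => I 1, l)) *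
        X (Sum.inl (fun _ => I 2, l))) (by
        intro y
        simp only [map_mul, eval_X, chart_inl]
        ring)
    simp only [map_mul, eval_X] at h
    refine ⟨I 0, l, fun h0 => ?_⟩
    rw [h0, zero_mul, zero_mul] at h
    exact (mul_ne_zero (mul_ne_zero ha ha) ha) h
  refine ⟨?_, key1, ?_⟩
  · intro hw0
    obtain ⟨a, ha⟩ := Function.ne_iff.1 hw0
    rcases a with a | ⟨i, J⟩
    · exact Or.inl (key1 a ha)
    · right
      have h := chart_eval hw (X (Sum.inr (i, J)) * X (Sum.inr (i, J)) * X (Sum.inr (i, J)))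
        (X (Sum.inr (i, fun _ => J 0)) * X (Sum.inr (i, fun _ => J 1)) *
          X (Sum.inr (i, fun _ => J 2))) (by
          intro y
          simp only [map_mul, eval_X, chart_inr]
          ring)
      simp only [map_mul, eval_X] at h
      refine ⟨i, J 0, fun h0 => ?_⟩
      rw [h0, zero_mul, zero_mul] at h
      have ha' : w (Sum.inr (i, J)) ≠ 0 := ha
      exact (mul_ne_zero (mul_ne_zero ha' ha') ha') h
  · intro i₀ l₀ hA
    set A : ℂ := w (Sum.inl (fun _ => i₀, l₀)) with hAdef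
    set p : κα → ℂ := fun i => w (Sum.inl (![i₀, i₀, i], l₀)) / A with hp
    set q : κβ → ℂ := fun l => w (Sum.inl (fun _ => i₀, l)) / A with hq
    set b : ℂ := w (Sum.inr (i₀, fun _ => l₀)) with hb
    have ep : ∀ i, w (Sum.inl (![i₀, i₀, i], l₀)) = A * p i := fun i => by
      rw [hp]
      field_simp
    have eq : ∀ l, w (Sum.inl (fun _ => i₀, l)) = A * q l := fun l => by
      rw [hq]
      field_simp
    have p1 : p i₀ = 1 := by
      change w (Sum.inl (![i₀, i₀, i₀], l₀)) / A = 1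
      rw [chart_const, ← hAdef, div_self hA]
    have q1 : q l₀ = 1 := by
      change w (Sum.inl (fun _ => i₀, l₀)) / A = 1
      rw [← hAdef, div_self hA]
    have w1 : ∀ (I : Fin 3 → κα) (l : κβ),
        w (Sum.inl (I, l)) = A * (p (I 0) * p (I 1) * p (I 2)) * q l := by
      intro I l
      have h := chart_eval hw _ _ (chart_id1 i₀ l₀ I l)
      simp only [map_mul, eval_X, ep, ← hAdef, eq l] at h
      apply mul_right_cancel₀ (pow_ne_zero 3 hA)
      linear_combination h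
    have w2 : ∀ (i : κα) (J : Fin 3 → κβ),
        w (Sum.inr (i, J)) = b * p i * (q (J 0) * q (J 1) * q (J 2)) := by
      intro i J
      have h := chart_eval hw _ _ (chart_id2 i₀ l₀ i J)
      simp only [map_mul, eval_X, ep, ← hAdef, ← hb, eq (J 0), eq (J 1), eq (J 2)] at h
      apply mul_right_cancel₀ (pow_ne_zero 4 hA)
      linear_combination h
    refine ⟨p, q, b, A, p1, q1, hA, ?_, ?_⟩
    · funext a
      rcases a with ⟨I, l⟩ | ⟨i, J⟩
      · exact w1 I l
      · exact w2 i J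
    · intro v hv
      set vA : ℂ := v (Sum.inl (fun _ => i₀, l₀)) with hvA
      set p' : κα → ℂ := fun i => (v (Sum.inl (![i₀, i₀, i], l₀)) - p i * vA) / A with hp'
      set q' : κβ → ℂ := fun l => (v (Sum.inl (fun _ => i₀, l)) - q l * vA) / A with hq'
      set b' : ℂ := v (Sum.inr (i₀, fun _ => l₀)) with hb'
      have ep' : ∀ i, v (Sum.inl (![i₀, i₀, i], l₀)) = A * p' i + p i * vA := fun i => by
        rw [hp']
        field_simp
        ring
      have eq' : ∀ l, v (Sum.inl (fun _ => i₀, l)) = A * q' l + q l * vA := fun l => by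
        rw [hq']
        field_simp
        ring
      have p0 : p' i₀ = 0 := by
        change (v (Sum.inl (![i₀, i₀, i₀], l₀)) - p i₀ * vA) / A = 0
        rw [chart_const, ← hvA, p1, one_mul, sub_self, zero_div]
      have q0 : q' l₀ = 0 := by
        change (v (Sum.inl (fun _ => i₀, l₀)) - q l₀ * vA) / A = 0
        rw [← hvA, q1, one_mul, sub_self, zero_div]
      refine ⟨p', q', b', vA, p0, q0, ?_⟩
      funext a
      rcases a with ⟨I, l⟩ | ⟨i, J⟩
      · have h := chart_dpol hv _ _ (chart_id1 i₀ l₀ I l)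
        simp only [dpol_mul, dpol_X, eval_X, map_mul, ep, ep', w1 I l, ← hAdef, ← hvA, eq l,
          eq' l] at h
        simp only [DTh, Sum.elim_inl]
        apply mul_right_cancel₀ (pow_ne_zero 3 hA)
        linear_combination h
      · have h := chart_dpol hv _ _ (chart_id2 i₀ l₀ i J)
        simp only [dpol_mul, dpol_X, eval_X, map_mul, ep, ep', w2 i J, ← hAdef, ← hvA, ← hb,
          ← hb', eq (J 0), eq (J 1), eq (J 2), eq' (J 0), eq' (J 1), eq' (J 2)] at h
        simp only [DTh, Sum.elim_inr]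
        apply mul_right_cancel₀ (pow_ne_zero 4 hA)
        linear_combination h

end Pool.Agent.Helper87.TC
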