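import Pool.Agent.Helper87.TC.Lib

set_option autoImplicit false

namespace Pool.Agent.Helper87.TC

open MvPolynomial Pool.Agent.Helper48.VMRT Pool.Agent.Helper87.VM

theorem compe_deg {κ : Type} [Fintype κ] {m d : ℕ} {E : MvPolynomial κ ℂ} (hE : HomE m E)
    (y : κ → Polynomial ℂ) (hy : ∀ k, (y k).natDegree ≤ d) :
    (aeval y E).natDegree ≤ m * d := by
  rw [aeval_def, eval₂_eq']
  apply Polynomial.natDegree_sum_le_of_forall_le
  intro mon hmon
  have hdeg : ∑ k, mon k = m := by
    have h := isHomogeneous_of_homE hE (mem_support_iff.1 hmon)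
    rw [Finsupp.weight_apply, Finsupp.sum_fintype _ _ (by simp)] at h
    simpa using h
  refine (Polynomial.natDegree_C_mul_le _ _).trans ?_
  refine (Polynomial.natDegree_prod_le _ _).trans ?_
  calc ∑ k, (y k ^ mon k).natDegree ≤ ∑ k, mon k * d := by
        refine Finset.sum_le_sum fun k _ => ?_
        exact Polynomial.natDegree_pow_le.trans (Nat.mul_le_mul_left _ (hy k))
    _ = m * d := by rw [← Finset.sum_mul, hdeg]

theorem compe_eval {κ : Type} (E : MvPolynomial κ ℂ) (y : κ → Polynomial ℂ) (τ : ℂ) :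
    (aeval y E).eval τ = eval (fun k => (y k).eval τ) E := by
  have h : (Polynomial.aeval τ : Polynomial ℂ →ₐ[ℂ] ℂ).comp (aeval y) =
      aeval (fun k => (y k).eval τ) := by
    ext k
    simp
  have h1 := congrArg (fun φ : MvPolynomial κ ℂ →ₐ[ℂ] ℂ => φ E) h
  simp only [AlgHom.comp_apply, Polynomial.aeval_def, Polynomial.eval₂_id,
    Algebra.algebraMap_self] at h1
  rw [h1, aeval_eq_eval]

theorem compe_hev {κ : Type} [Fintype κ] {m d : ℕ} {E : MvPolynomial κ ℂ} (hE : HomE m E)
    (y : κ → Polynomial ℂ) (hy : ∀ k, (y k).natDegree ≤ d) (s t : ℂ) :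
    hev (m * d) (aeval y E) s t = eval (hevv d y s t) E := by
  have key : (fun s : ℂ => hev (m * d) (aeval y E) s t) =
      fun s : ℂ => eval (hevv d y s t) E := by
    refine Continuous.ext_on (dense_compl_singleton (0 : ℂ)) ?_ ?_ ?_
    · unfold hev
      fun_prop
    · refine (MvPolynomial.continuous_eval E).comp ?_
      refine continuous_pi fun k => ?_
      unfold hevv hev
      fun_prop
    · intro s hs
      have hs0 : s ≠ 0 := hs
      have h1 : hevv d y s t = s ^ d • fun k => (y k).eval (t / s) := by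
        funext k
        change hev d (y k) s t = s ^ d * (y k).eval (t / s)
        rw [hev_of_ne (hy k) hs0]
      change hev (m * d) (aeval y E) s t = eval (hevv d y s t) E
      rw [hev_of_ne (compe_deg hE y hy) hs0, compe_eval, h1, hE, ← pow_mul, mul_comm d m]
  exact congrFun key s

theorem st_COMPE : ST_COMPE := by
  classical
  intro κ _ N m d E hE
  let R := MvPolynomial (κ × Fin (d + 1)) ℂ
  let yT : κ → Polynomial R := fun k => ∑ j : Fin (d + 1),
    Polynomial.C (X (k, j) : R) * Polynomial.X ^ (j : ℕ)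
  let P : Fin (N + 1) → Polynomial R := fun i =>
    eval₂ ((Polynomial.C : R →+* Polynomial R).comp (C : ℂ →+* R)) yT (E i)
  refine ⟨fun p => (P p.1).coeff p.2, ?_⟩
  intro c s t
  let y : κ → Polynomial ℂ := fun k => ∑ j : Fin (d + 1),
    Polynomial.C (c (k, j)) * Polynomial.X ^ (j : ℕ)
  have hycoeff : ∀ k (j : ℕ), (y k).coeff j = if h : j < d + 1 then c (k, ⟨j, h⟩) else 0 := by
    intro k j
    simp only [y, Polynomial.finsetSum_coeff, Polynomial.coeff_C_mul_X_pow]
    by_cases h : j < d + 1
    · rw [dif_pos h, Finset.sum_eq_single (⟨j, h⟩ : Fin (d + 1))]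
      · simp
      · intro k _ hk
        rw [if_neg]
        intro e
        exact hk (Fin.ext e.symm)
      · simp
    · rw [dif_neg h]
      refine Finset.sum_eq_zero fun k _ => ?_
      rw [if_neg]
      intro e
      exact h (e ▸ k.2)
  have hydeg : ∀ k, (y k).natDegree ≤ d := by
    intro k
    rw [Polynomial.natDegree_le_iff_coeff_eq_zero]
    intro j hj
    rw [hycoeff, dif_neg (by omega)]
  have hmap : ∀ i, Polynomial.map (eval c) (P i) = aeval y (E i) := by
    intro i
    have h1 : (Polynomial.mapRingHom (eval c)).comp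
        (eval₂Hom ((Polynomial.C : R →+* Polynomial R).comp (C : ℂ →+* R)) yT) =
        ((aeval y : MvPolynomial κ ℂ →ₐ[ℂ] Polynomial ℂ) : MvPolynomial κ ℂ →+* Polynomial ℂ) := by
      apply MvPolynomial.ringHom_ext
      · intro r
        simp only [RingHom.comp_apply, coe_eval₂Hom, eval₂_C, Polynomial.coe_mapRingHom,
          Polynomial.map_C, RingHom.coe_coe, algHom_C, Polynomial.algebraMap_eq]
        exact congrArg Polynomial.C (eval_C r)
      · intro k
        simp [yT, y]
    exact congrArg (fun φ : MvPolynomial κ ℂ →+* Polynomial ℂ => φ (E i)) h1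
  have hcev : hevv d y s t = cev d c s t := by
    funext k
    simp only [hevv, hev, cev]
    rw [Finset.sum_range fun j => (y k).coeff j * s ^ (d - j) * t ^ j]
    refine Finset.sum_congr rfl fun j _ => ?_
    rw [hycoeff, dif_pos j.2]
  funext i
  change ∑ l : Fin (m * d + 1), eval c ((P i).coeff l) * s ^ (m * d - (l : ℕ)) * t ^ (l : ℕ) =
    eval (cev d c s t) (E i)
  rw [← hcev, ← compe_hev (hE i) y hydeg s t, ← hmap, hev,
    Finset.sum_range fun j => (Polynomial.map (eval c) (P i)).coeff j * s ^ (m * d - j) * t ^ j]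
  refine Finset.sum_congr rfl fun l _ => ?_
  rw [Polynomial.coeff_map]

end Pool.Agent.Helper87.TC
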