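import Pool.Agent.Helper87.TC.Lib

set_option autoImplicit false

namespace Pool.Agent.Helper87.TC

open MvPolynomial Pool.Agent.Helper48.VMRT Pool.Agent.Helper87.VM

section

variable {κα κβ : Type}

theorem fq_mon0 (b : ℕ) : ∀ (s : Multiset κα) (t : Multiset κβ), s.card = b → t.card = 3 * b →
    ∃ G : MvPolynomial (KK κα κβ) ℂ, ∀ (p : κα → ℂ) (q : κβ → ℂ) (b' c' : ℂ),
      eval (Theta p q b' c') G = b' ^ b * (s.map p).prod * (t.map q).prod := by
  induction b with
  | zero =>
    intro s t hs ht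
    rw [Multiset.card_eq_zero] at hs ht
    refine ⟨1, fun p q b' c' => ?_⟩
    rw [hs, ht]
    simp
  | succ b ih =>
    intro s t hs ht
    obtain ⟨x, s', rfl, hs'⟩ := Multiset.card_eq_succ_iff.1 hs
    obtain ⟨u, t1, rfl, ht1⟩ := Multiset.card_eq_succ_iff.1 (show t.card = (3 * b + 2) + 1 by omega)
    obtain ⟨v, t2, rfl, ht2⟩ := Multiset.card_eq_succ_iff.1 (show t1.card = (3 * b + 1) + 1 by omega)
    obtain ⟨w, t3, rfl, ht3⟩ := Multiset.card_eq_succ_iff.1 (show t2.card = 3 * b + 1 by omega)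
    obtain ⟨G, hG⟩ := ih s' t3 hs' ht3
    refine ⟨X (Sum.inr (x, ![u, v, w])) * G, fun p q b' c' => ?_⟩
    rw [map_mul, eval_X, hG]
    have : Theta p q b' c' (Sum.inr (x, ![u, v, w])) = b' * p x * (q u * q v * q w) := rfl
    rw [this]
    simp only [Multiset.map_cons, Multiset.prod_cons, pow_succ]
    ring

theorem fq_mon (a b : ℕ) : ∀ (s : Multiset κα) (t : Multiset κβ), s.card = 3 * a + b →
    t.card = a + 3 * b →
    ∃ G : MvPolynomial (KK κα κβ) ℂ, ∀ (p : κα → ℂ) (q : κβ → ℂ) (b' c' : ℂ),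
      eval (Theta p q b' c') G = c' ^ a * b' ^ b * (s.map p).prod * (t.map q).prod := by
  induction a with
  | zero =>
    intro s t hs ht
    obtain ⟨G, hG⟩ := fq_mon0 b s t (by omega) (by omega)
    exact ⟨G, fun p q b' c' => by rw [hG, pow_zero, one_mul]⟩
  | succ a ih =>
    intro s t hs ht
    obtain ⟨x, s1, rfl, hs1⟩ := Multiset.card_eq_succ_iff.1
      (show s.card = (3 * a + b + 2) + 1 by omega)
    obtain ⟨y, s2, rfl, hs2⟩ := Multiset.card_eq_succ_iff.1
      (show s1.card = (3 * a + b + 1) + 1 by omega)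
    obtain ⟨z, s3, rfl, hs3⟩ := Multiset.card_eq_succ_iff.1 (show s2.card = 3 * a + b + 1 by omega)
    obtain ⟨u, t', rfl, ht'⟩ := Multiset.card_eq_succ_iff.1
      (show t.card = (a + 3 * b) + 1 by omega)
    obtain ⟨G, hG⟩ := ih s3 t' hs3 ht'
    refine ⟨X (Sum.inl (![x, y, z], u)) * G, fun p q b' c' => ?_⟩
    rw [map_mul, eval_X, hG]
    have : Theta p q b' c' (Sum.inl (![x, y, z], u)) = c' * (p x * p y * p z) * q u := rfl
    rw [this]
    simp only [Multiset.map_cons, Multiset.prod_cons, pow_succ]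
    ring

/-- the degree in the second group of variables -/
def fqw [Fintype κβ] (m : κα ⊕ κβ →₀ ℕ) : ℕ := ∑ j : κβ, m (Sum.inr j)

/-- the degree in the first group of variables -/
def fqv [Fintype κα] (m : κα ⊕ κβ →₀ ℕ) : ℕ := ∑ j : κα, m (Sum.inl j)

theorem fq_weight [Fintype κα] [Fintype κβ] (m : κα ⊕ κβ →₀ ℕ) :
    Finsupp.weight (Sum.elim (fun _ => 0) (fun _ => 1) : κα ⊕ κβ → ℕ) m = fqw m := by
  rw [Finsupp.weight_apply, Finsupp.sum_fintype _ _ (by simp), Fintype.sum_sum_type]
  simp [fqw]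

theorem fq_degree [Fintype κα] [Fintype κβ] (m : κα ⊕ κβ →₀ ℕ) :
    Finsupp.weight (1 : κα ⊕ κβ → ℕ) m = fqv m + fqw m := by
  rw [Finsupp.weight_apply, Finsupp.sum_fintype _ _ (by simp), Fintype.sum_sum_type]
  simp [fqw, fqv]

theorem fq_multi {κ : Type} [Fintype κ] (e : κ → ℕ) :
    (∑ i : κ, e i • ({i} : Multiset κ)).card = ∑ i, e i ∧
    ∀ p : κ → ℂ, ((∑ i : κ, e i • ({i} : Multiset κ)).map p).prod = ∏ i, p i ^ e i := by
  constructor
  · rw [Multiset.card_sum]
    simp
  · intro p
    have : ((∑ i : κ, e i • ({i} : Multiset κ)).map p).prod =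
        ∏ i, ((e i • ({i} : Multiset κ)).map p).prod := by
      rw [← Multiset.coe_mapAddMonoidHom, map_sum, Multiset.prod_sum]
    rw [this]
    refine Finset.prod_congr rfl fun i _ => ?_
    rw [Multiset.map_nsmul, Multiset.prod_nsmul, Multiset.map_singleton, Multiset.prod_singleton]

end

theorem st_FQ : ST_FQ := by
  classical
  intro κα κβ _ _ d ε f hf T hT i l
  have hdeg : ∀ m ∈ f.support, fqv m + fqw m = d := by
    intro m hm
    rw [← fq_degree]
    exact isHomogeneous_of_homE hf.hom (mem_support_iff.1 hm)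
  have hpar : ∀ m ∈ f.support, fqw m % 2 = ε := by
    intro m hm
    by_contra hne
    have h1 := congrArg (coeff m) (hf.par _ hne)
    rw [bcomp, coeff_weightedHomogeneousComponent, if_pos (fq_weight m), coeff_zero] at h1
    exact (mem_support_iff.1 hm) h1
  have hε := hf.le
  have key : ∀ m : κα ⊕ κβ →₀ ℕ, ∃ G : MvPolynomial (KK κα κβ) ℂ, m ∈ f.support →
      ∀ (p : κα → ℂ) (q : κβ → ℂ) (b c : ℂ), eval (Theta p q b c) G =
        c ^ (T - (fqw m - ε) / 2) * b ^ ((fqw m - ε) / 2) *
          (p i ^ (3 * T - d + ε) * ∏ i', p i' ^ m (Sum.inl i')) *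
          (q l ^ (T - ε) * ∏ l', q l' ^ m (Sum.inr l')) := by
    intro m
    by_cases hm : m ∈ f.support
    · have h1 := hdeg m hm
      have h2 := hpar m hm
      obtain ⟨c1, p1⟩ := fq_multi (fun i' : κα => m (Sum.inl i'))
      obtain ⟨c2, p2⟩ := fq_multi (fun l' : κβ => m (Sum.inr l'))
      obtain ⟨G, hG⟩ := fq_mon (T - (fqw m - ε) / 2) ((fqw m - ε) / 2)
        (Multiset.replicate (3 * T - d + ε) i + ∑ i' : κα, m (Sum.inl i') • ({i'} : Multiset κα))
        (Multiset.replicate (T - ε) l + ∑ l' : κβ, m (Sum.inr l') • ({l'} : Multiset κβ))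
        (by
          rw [Multiset.card_add, Multiset.card_replicate, c1]
          change _ + fqv m = _
          omega)
        (by
          rw [Multiset.card_add, Multiset.card_replicate, c2]
          change _ + fqw m = _
          omega)
      refine ⟨G, fun _ p q b c => ?_⟩
      rw [hG, Multiset.map_add, Multiset.prod_add, Multiset.map_add, Multiset.prod_add, p1, p2,
        Multiset.map_replicate, Multiset.prod_replicate, Multiset.map_replicate,
        Multiset.prod_replicate]
    · exact ⟨0, fun h => absurd h hm⟩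
  choose G hG using key
  refine ⟨∑ m ∈ f.support, C (coeff m f) * G m, fun p q b c => ?_⟩
  have hb : ∀ j, eval (Sum.elim p q) (bcomp j f) = ∑ m ∈ f.support,
      if fqw m = j then coeff m f * ((∏ i', p i' ^ m (Sum.inl i')) *
        ∏ l', q l' ^ m (Sum.inr l')) else 0 := by
    intro j
    rw [bcomp, weightedHomogeneousComponent_apply, map_sum, Finset.sum_filter]
    refine Finset.sum_congr rfl fun m _ => ?_
    rw [fq_weight]
    split_ifs
    · rw [eval_monomial, Finsupp.prod_fintype _ _ (by simp), Fintype.prod_sum_type]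
      simp
    · rfl
  simp only [hb, map_sum, map_mul, eval_C]
  rw [Finset.mul_sum]
  simp only [Finset.sum_mul, Finset.mul_sum]
  rw [Finset.sum_comm]
  refine Finset.sum_congr rfl fun m hm => ?_
  have h1 := hdeg m hm
  have h2 := hpar m hm
  rw [hG m hm p q b c, Finset.sum_eq_single ((fqw m - ε) / 2)]
  · rw [if_pos (by omega)]
    ring
  · intro k _ hk
    rw [if_neg (by omega)]
    ring
  · intro hk
    exfalso
    apply hk
    rw [Finset.mem_range]
    omega

end Pool.Agent.Helper87.TC
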