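import Pool.Agent.Helper87.TC.Lib

set_option autoImplicit false

namespace Pool.Agent.Helper87.TC

open MvPolynomial Pool.Agent.Helper48.VMRT Pool.Agent.Helper87.VM

theorem psipm_rfl_inl {κα κβ : Type} (p : κα → ℂ) (q : κβ → ℂ) (b c : ℂ) (I : Fin 3 → κα)
    (l : κβ) : Theta p q b c (Sum.inl (I, l)) = c * (p (I 0) * p (I 1) * p (I 2)) * q l := rfl

theorem psipm_rfl_inr {κα κβ : Type} (p : κα → ℂ) (q : κβ → ℂ) (b c : ℂ) (i : κα)
    (J : Fin 3 → κβ) : Theta p q b c (Sum.inr (i, J)) = b * p i * (q (J 0) * q (J 1) * q (J 2)) :=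
  rfl

theorem st_PSIPM (h1 : ST_SEPP) (h2 : ST_PTS) (h3 : ST_TANI) (h4 : ST_UPB) (h5 : ST_UPA)
    (h6 : VM.ST_LB) : ST_PSIPM := by
  intro κα κβ _ _ n Y hY hS hex
  obtain ⟨y0, hy0, hp0, hq0⟩ := hex
  have hprime : (vanishingIdeal ℂ (Cl (ev Psi '' Y))).IsPrime := by
    rw [vI_Cl]
    exact prime_image Psi hY.irred
  have hin : ev Psi y0 ∈ Cl (ev Psi '' Y) := subset_Cl _ (Set.mem_image_of_mem _ hy0)
  -- the dimension outside the boundary
  have hout : ∀ x ∈ Cl (ev Psi '' Y), x ∉ Bd κα κβ →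
      Module.finrank ℂ (tsp (Cl (ev Psi '' Y)) x) = n + 1 := by
    intro x hx hB
    obtain ⟨y, hy, hp, hq, rfl⟩ := (h2 κα κβ Y hS).1 x hx hB
    have hy1 : y ≠ 0 := by
      rintro rfl
      exact hp rfl
    have hinj : Function.Injective (devL Psi y : (κα ⊕ κβ → ℂ) →ₗ[ℂ] (KK κα κβ → ℂ)) := by
      rw [← LinearMap.ker_eq_bot, LinearMap.ker_eq_bot']
      intro v hv
      exact (h1 κα κβ y hp hq).2.2 v hv
    have hmap : tsp (Cl (ev Psi '' Y)) (ev Psi y) = (tsp Y y).map (devL Psi y) := by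
      ext v
      rw [Submodule.mem_map, h3 κα κβ Y hS y hy hp hq v]
      constructor
      · rintro ⟨u, hu, rfl⟩
        exact ⟨u, hu, rfl⟩
      · rintro ⟨u, hu, rfl⟩
        exact ⟨u, hu, rfl⟩
    rw [hmap, ← (Submodule.equivMapOfInjective _ hinj (tsp Y y)).finrank_eq]
    exact hY.smooth y hy hy1
  have hlow : ∀ x ∈ Cl (ev Psi '' Y), n + 1 ≤ Module.finrank ℂ (tsp (Cl (ev Psi '' Y)) x) := by
    obtain ⟨i₀, hi₀⟩ := Function.ne_iff.1 hp0
    obtain ⟨l₀, hl₀⟩ := Function.ne_iff.1 hq0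
    have hi : pl y0 i₀ ≠ 0 := hi₀
    have hl : qr y0 l₀ ≠ 0 := hl₀
    refine h6 _ _ (n + 1)
      (X (Sum.inl (fun _ => i₀, l₀)) * X (Sum.inr (i₀, fun _ => l₀))) hprime ?_ ?_
    · refine ⟨_, hin, ?_⟩
      rw [map_mul, eval_X, eval_X, ev_Psi, psipm_rfl_inl, psipm_rfl_inr, one_mul, one_mul]
      exact mul_ne_zero (mul_ne_zero (mul_ne_zero (mul_ne_zero hi hi) hi) hl)
        (mul_ne_zero hi (mul_ne_zero (mul_ne_zero hl hl) hl))
    · intro x hx hne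
      rw [map_mul, eval_X, eval_X] at hne
      refine (hout x hx ?_).ge
      rintro (h | h)
      · exact hne (by rw [h, zero_mul])
      · exact hne (by rw [h, mul_zero])
  refine ⟨zclosed_Cl _, ?_, hprime, ⟨_, hin, (h1 κα κβ y0 hp0 hq0).1⟩, ?_⟩
  · apply Cl_cone
    rintro a _ ⟨y, hy, rfl⟩
    obtain ⟨z, hz⟩ := IsAlgClosed.exists_pow_nat_eq a (n := 4) (by norm_num)
    refine ⟨z • y, hS.cone z y hy, ?_⟩
    rw [ev_Psi_smul, hz]
  · intro x hx hx0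
    by_cases hB : x ∈ Bd κα κβ
    · refine le_antisymm ?_ (hlow x hx)
      rcases hB with hB | hB
      · exact h5 κα κβ n Y hY hS x hx hx0 hB
      · exact h4 κα κβ n Y hY hS x hx hx0 hB
    · exact hout x hx hB

end Pool.Agent.Helper87.TC
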