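import Pool.Agent.Helper87.TC.Lib

set_option autoImplicit false

namespace Pool.Agent.Helper87.TC

open MvPolynomial Pool.Agent.Helper48.VMRT Pool.Agent.Helper87.VM

theorem pts_rfl_inl {κα κβ : Type} (p : κα → ℂ) (q : κβ → ℂ) (b c : ℂ) (I : Fin 3 → κα)
    (l : κβ) : Theta p q b c (Sum.inl (I, l)) = c * (p (I 0) * p (I 1) * p (I 2)) * q l := rfl

theorem pts_rfl_inr {κα κβ : Type} (p : κα → ℂ) (q : κβ → ℂ) (b c : ℂ) (i : κα)
    (J : Fin 3 → κβ) : Theta p q b c (Sum.inr (i, J)) = b * p i * (q (J 0) * q (J 1) * q (J 2)) :=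
  rfl

theorem pts_one (h1 : ST_CHART) (h2 : ST_FQ) (h3 : ST_BC) (h4 : ST_PURE) {κα κβ : Type}
    [Fintype κα] [Fintype κβ] (S : Set (κα ⊕ κβ → ℂ)) (hS : AdCone S) :
    ∀ w ∈ Cl (ev Psi '' S), w ∉ Bd κα κβ →
      ∃ y ∈ S, pl y ≠ 0 ∧ qr y ≠ 0 ∧ w = ev Psi y := by
  intro w hw hB
  have hB1 : ¬ ∀ a, w (Sum.inl a) = 0 := fun h => hB (Or.inl h)
  have hB2 : ¬ ∀ a, w (Sum.inr a) = 0 := fun h => hB (Or.inr h)
  push Not at hB1 hB2
  obtain ⟨a, ha⟩ := hB1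
  obtain ⟨⟨i, J⟩, hb'⟩ := hB2
  obtain ⟨i₀, l₀, hA⟩ := (h1 κα κβ S w hw).2.1 a ha
  obtain ⟨p, q, b, c, p1, q1, hc, hw', -⟩ := (h1 κα κβ S w hw).2.2 i₀ l₀ hA
  have hb : b ≠ 0 := by
    rintro rfl
    apply hb'
    rw [hw', pts_rfl_inr]
    ring
  obtain ⟨x, hx⟩ := IsAlgClosed.exists_pow_nat_eq c (n := 2) (by norm_num)
  obtain ⟨t, ht⟩ := IsAlgClosed.exists_pow_nat_eq b (n := 2) (by norm_num)
  have hx0 : x ≠ 0 := by
    rintro rfl
    apply hc
    rw [← hx]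
    ring
  have ht0 : t ≠ 0 := by
    rintro rfl
    apply hb
    rw [← ht]
    ring
  have hz0 : Sum.elim (x • p) (t • q) ∈ S := by
    refine (h4 κα κβ S hS).1 _ ?_
    intro d ε f hf hpure
    obtain ⟨G, hG⟩ := h2 κα κβ d ε f hpure (d + 1) le_rfl i₀ l₀
    obtain ⟨hb1, hb2, hb3, -⟩ := h3 κα κβ d ε f hpure (d + 1) (Nat.le_succ d)
    have hG0 : eval w G = 0 := by
      refine mem_Cl.1 hw G (mem_vI.2 ?_)
      rintro _ ⟨z, hz, rfl⟩
      rw [ev_Psi, hG]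
      simp only [one_pow, mul_one]
      rw [← hb2, elim_pl_qr, mem_vI.1 hf z hz, mul_zero]
    rw [hw', hG, p1, q1, one_pow, one_pow, one_mul, one_mul] at hG0
    have hε := hpure.le
    have h5 : x ^ (2 * (d + 1) - d + ε) * eval (Sum.elim (x • p) (t • q)) f = 0 := by
      have h6 : x ^ (2 * (d + 1) - d + ε) * eval (Sum.elim (x • p) (t • q)) f =
          t ^ ε * ∑ k ∈ Finset.range (d + 1 + 1),
            eval (Sum.elim p q) (bcomp (2 * k + ε) f) * c ^ (d + 1 - k) * b ^ k := by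
        rw [hb2, Finset.mul_sum, Finset.mul_sum]
        refine Finset.sum_congr rfl fun k hk => ?_
        rw [Finset.mem_range] at hk
        by_cases hkd : 2 * k + ε ≤ d
        · rw [hb1 x t p q _ hkd, ← hx, ← ht]
          have e1 : x ^ (2 * (d + 1) - d + ε) * x ^ (d - (2 * k + ε)) =
              (x ^ 2) ^ (d + 1 - k) := by
            rw [← pow_add, ← pow_mul]
            congr 1
            omega
          have e2 : t ^ (2 * k + ε) = t ^ ε * (t ^ 2) ^ k := by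
            rw [← pow_mul, ← pow_add]
            congr 1
            omega
          calc _ = (x ^ (2 * (d + 1) - d + ε) * x ^ (d - (2 * k + ε))) * t ^ (2 * k + ε) *
                eval (Sum.elim p q) (bcomp (2 * k + ε) f) := by ring
            _ = _ := by
                rw [e1, e2]
                ring
        · rw [hb3 _ (by omega), map_zero, map_zero]
          ring
      rw [h6, hG0, mul_zero]
    exact (mul_eq_zero.1 h5).resolve_left (pow_ne_zero _ hx0)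
  obtain ⟨ζ, hζ⟩ := IsAlgClosed.exists_pow_nat_eq ((x * t)⁻¹) (n := 4) (by norm_num)
  have hζ0 : ζ ≠ 0 := by
    rintro rfl
    have : (x * t)⁻¹ = 0 := by
      rw [← hζ]
      ring
    exact (inv_ne_zero (mul_ne_zero hx0 ht0)) this
  refine ⟨ζ • Sum.elim (x • p) (t • q), hS.cone ζ _ hz0, ?_, ?_, ?_⟩
  · intro h0
    have h7 := congrFun h0 i₀
    have h8 : ζ * (x * p i₀) = 0 := h7
    rw [p1, mul_one] at h8
    exact (mul_ne_zero hζ0 hx0) h8
  · intro h0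
    have h7 := congrFun h0 l₀
    have h8 : ζ * (t * q l₀) = 0 := h7
    rw [q1, mul_one] at h8
    exact (mul_ne_zero hζ0 ht0) h8
  · rw [ev_Psi_smul, ← Theta_sq, hζ, smul_smul, inv_mul_cancel₀ (mul_ne_zero hx0 ht0), one_smul,
      hw', hx, ht]

theorem st_PTS (h1 : ST_CHART) (h2 : ST_FQ) (h3 : ST_BC) (h4 : ST_PURE) (h5 : ST_SEPP) :
    ST_PTS := by
  intro κα κβ _ _ S hS
  refine ⟨pts_one h1 h2 h3 h4 S hS, ?_⟩
  intro y hp hq hy
  have hB : ev Psi y ∉ Bd κα κβ := by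
    obtain ⟨i₀, hi₀⟩ := Function.ne_iff.1 hp
    obtain ⟨l₀, hl₀⟩ := Function.ne_iff.1 hq
    have hi : pl y i₀ ≠ 0 := hi₀
    have hl : qr y l₀ ≠ 0 := hl₀
    rintro (h | h)
    · have h6 := h (fun _ => i₀, l₀)
      rw [ev_Psi, pts_rfl_inl, one_mul] at h6
      exact (mul_ne_zero (mul_ne_zero (mul_ne_zero hi hi) hi) hl) h6
    · have h6 := h (i₀, fun _ => l₀)
      rw [ev_Psi, pts_rfl_inr, one_mul] at h6
      exact (mul_ne_zero hi (mul_ne_zero (mul_ne_zero hl hl) hl)) h6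
  obtain ⟨y0, hy0, hp0, hq0, he⟩ := pts_one h1 h2 h3 h4 S hS _ hy hB
  obtain ⟨c, hc | hc⟩ := (h5 κα κβ y0 hp0 hq0).2.1 y 1 hp hq (by rw [he, one_smul])
  · rw [hc]
    exact hS.cone c _ hy0
  · rw [hc]
    exact hS.cone c _ (hS.inv _ hy0)

end Pool.Agent.Helper87.TC
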