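import Pool.Agent.Helper87.TC.Lib

set_option autoImplicit false

namespace Pool.Agent.Helper87.TC

open MvPolynomial Pool.Agent.Helper48.VMRT Pool.Agent.Helper87.VM

theorem tani_rfl_inl {κα κβ : Type} (p : κα → ℂ) (q : κβ → ℂ) (b c : ℂ) (I : Fin 3 → κα)
    (l : κβ) : Theta p q b c (Sum.inl (I, l)) = c * (p (I 0) * p (I 1) * p (I 2)) * q l := rfl

theorem tani_rfl_inr {κα κβ : Type} (p : κα → ℂ) (q : κβ → ℂ) (b c : ℂ) (i : κα)
    (J : Fin 3 → κβ) : Theta p q b c (Sum.inr (i, J)) = b * p i * (q (J 0) * q (J 1) * q (J 2)) :=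
  rfl

/-- the function `G ∘ Psi` -/
theorem tani_G (h2 : ST_FQ) (h3 : ST_BC) {κα κβ : Type} [Fintype κα] [Fintype κβ] (d ε : ℕ)
    (f : MvPolynomial (κα ⊕ κβ) ℂ) (hf : Pure d ε f) (i : κα) (l : κβ) :
    ∃ G : MvPolynomial (KK κα κβ) ℂ, ∃ a b : ℕ,
      aeval Psi G = X (Sum.inl i) ^ a * X (Sum.inr l) ^ b * f := by
  obtain ⟨G, hG⟩ := h2 κα κβ d ε f hf (d + 1) le_rfl i l
  obtain ⟨-, hs, -⟩ := h3 κα κβ d ε f hf (d + 1) (Nat.le_succ d)
  refine ⟨G, 3 * (d + 1) - d + ε, d + 1 - ε, ?_⟩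
  apply MvPolynomial.funext
  intro z
  rw [eval_aeval, ev_Psi, hG]
  simp only [one_pow, mul_one, map_mul, map_pow, eval_X]
  rw [← hs, elim_pl_qr]
  rfl

theorem st_TANI (h1 : ST_CHART) (h2 : ST_FQ) (h3 : ST_BC) (h4 : ST_PURE) : ST_TANI := by
  intro κα κβ _ _ S hS y hy hp0 hq0 v
  constructor
  · intro hv
    obtain ⟨i₀, hi₀⟩ := Function.ne_iff.1 hp0
    obtain ⟨l₀, hl₀⟩ := Function.ne_iff.1 hq0
    set x : ℂ := pl y i₀ with hx
    set t : ℂ := qr y l₀ with ht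
    have hx0 : x ≠ 0 := hi₀
    have ht0 : t ≠ 0 := hl₀
    have hw : ev Psi y ∈ Cl (ev Psi '' S) := subset_Cl _ ⟨y, hy, rfl⟩
    have hA : ev Psi y (Sum.inl (fun _ => i₀, l₀)) ≠ 0 := by
      rw [ev_Psi, tani_rfl_inl, ← hx, ← ht, one_mul]
      exact mul_ne_zero (mul_ne_zero (mul_ne_zero hx0 hx0) hx0) ht0
    obtain ⟨p, q, b, c, p1, q1, hc, hw', hvv⟩ := (h1 κα κβ S _ hw).2.2 i₀ l₀ hA
    obtain ⟨p', q', b', c', -, -, hv'⟩ := hvv v hv
    rw [ev_Psi] at hw'
    have ec : c = x ^ 3 * t := by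
      have h := congrFun hw' (Sum.inl (fun _ => i₀, l₀))
      rw [tani_rfl_inl, tani_rfl_inl, p1, q1, ← hx, ← ht] at h
      linear_combination -h
    have eb : b = x * t ^ 3 := by
      have h := congrFun hw' (Sum.inr (i₀, fun _ => l₀))
      rw [tani_rfl_inr, tani_rfl_inr, p1, q1, ← hx, ← ht] at h
      linear_combination -h
    have ep : ∀ i, pl y i = x * p i := by
      intro i
      have h := congrFun hw' (Sum.inl (![i₀, i₀, i], l₀))
      rw [tani_rfl_inl, tani_rfl_inl] at h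
      simp only [Matrix.cons_val_zero, Matrix.cons_val_one, Matrix.cons_val] at h
      rw [p1, q1, ← hx, ← ht, ec] at h
      apply mul_left_cancel₀ (mul_ne_zero (pow_ne_zero 2 hx0) ht0)
      linear_combination h
    have eq : ∀ l, qr y l = t * q l := by
      intro l
      have h := congrFun hw' (Sum.inl (fun _ => i₀, l))
      rw [tani_rfl_inl, tani_rfl_inl, p1, ← hx, ec] at h
      apply mul_left_cancel₀ (pow_ne_zero 3 hx0)
      linear_combination h
    set x' : ℂ := (3 * x * t ^ 2 * c' - x ^ 3 * b') / (8 * x ^ 3 * t ^ 3) with hx'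
    set t' : ℂ := (3 * x ^ 2 * t * b' - t ^ 3 * c') / (8 * x ^ 3 * t ^ 3) with ht'
    have e1 : 3 * x ^ 2 * x' * t + x ^ 3 * t' = c' := by
      rw [hx', ht']
      field_simp
      ring
    have e2 : x' * t ^ 3 + 3 * x * t ^ 2 * t' = b' := by
      rw [hx', ht']
      field_simp
      ring
    have ev' : v = dev Psi y (Sum.elim (x • p' + x' • p) (t • q' + t' • q)) := by
      rw [dev_Psi, hv', ← e1, ← e2, ec, eb]
      funext a
      rcases a with ⟨I, l⟩ | ⟨i, J⟩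
      · simp only [DTh, Sum.elim_inl, pl_elim, qr_elim, ep, eq, Pi.add_apply, Pi.smul_apply,
          smul_eq_mul]
        ring
      · simp only [DTh, Sum.elim_inr, pl_elim, qr_elim, ep, eq, Pi.add_apply, Pi.smul_apply,
          smul_eq_mul]
        ring
    refine ⟨_, ?_, ev'⟩
    refine (h4 κα κβ S hS).2 _ _ ?_
    intro d ε f hf hpure
    obtain ⟨G, m, n, hG⟩ := tani_G h2 h3 d ε f hpure i₀ l₀
    have hG0 : G ∈ vanishingIdeal ℂ (Cl (ev Psi '' S)) := by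
      rw [vI_Cl, mem_vI]
      rintro _ ⟨z, hz, rfl⟩
      rw [← eval_aeval, hG, map_mul, mem_vI.1 hf z hz, mul_zero]
    have h5 := hv G hG0
    rw [ev', ← dpol_aeval, hG, dpol_mul, mem_vI.1 hf y hy, zero_mul, add_zero] at h5
    rcases mul_eq_zero.1 h5 with h6 | h6
    · exfalso
      rw [map_mul, map_pow, map_pow, eval_X, eval_X] at h6
      exact (mul_ne_zero (pow_ne_zero m hx0) (pow_ne_zero n ht0)) h6
    · exact h6
  · rintro ⟨u, hu, rfl⟩
    exact dev_mem_tsp Psi (fun z hz => subset_Cl _ (Set.mem_image_of_mem _ hz)) hu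

end Pool.Agent.Helper87.TC
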