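import Pool.Agent.Helper87.TC.Lib

set_option autoImplicit false

namespace Pool.Agent.Helper87.TC

open MvPolynomial Pool.Agent.Helper48.VMRT Pool.Agent.Helper87.VM

theorem tower_zero (h3 : ST_TRANS) (κ : Type) [Fintype κ] (n : ℕ) (Y D : Set (κ → ℂ))
    (γ : (κ → ℂ) →ₗ[ℂ] (κ → ℂ)) (ε : ℂ) (h : Inp n (2 ^ 0) Y D γ ε) :
    ∃ (N : ℕ) (E : Fin (N + 1) → MvPolynomial κ ℂ) (X DX : Set (Fin (N + 1) → ℂ)) (ε' : ℂ),
      ε' ≠ 0 ∧ Res n (4 ^ 0) Y D γ E X DX (ε' • LinearMap.id) := by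
  classical
  have hne : Nonempty κ := by
    by_contra hemp
    rw [not_nonempty_iff] at hemp
    obtain ⟨x, -, hx⟩ := h.pm.exists_ne
    exact hx (Subsingleton.elim _ _)
  have hcard : Fintype.card κ = (Fintype.card κ - 1) + 1 := by
    have := Fintype.card_pos_iff.2 hne
    omega
  let N := Fintype.card κ - 1
  let e : κ ≃ Fin (N + 1) := Fintype.equivFinOfCardEq hcard
  let φ : (Fin (N + 1) → ℂ) ≃ₗ[ℂ] (κ → ℂ) := LinearEquiv.funCongrLeft ℂ ℂ e
  have hφ : ∀ x k, φ x k = x (e k) := fun x k => rfl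
  let E : Fin (N + 1) → MvPolynomial κ ℂ := fun i => X (e.symm i)
  have hE : ∀ y, φ (ev E y) = y := by
    intro y
    funext k
    rw [hφ]
    simp [ev, E]
  have hE' : ∀ x, ev E (φ x) = x := by
    intro x
    apply φ.injective
    rw [hE]
  have hdE : ∀ y v, φ (dev E y v) = v := by
    intro y v
    funext k
    rw [hφ, dev_apply, dpol_X, Equiv.symm_apply_apply]
  have hγ : ∀ y, γ y = ε • y := by
    intro y
    have := h.pow y
    rwa [pow_zero, pow_one] at this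
  obtain ⟨-, t2, t3, t4⟩ := h3 (Fin (N + 1)) κ φ Y
  obtain ⟨d1, -, -, -⟩ := h3 (Fin (N + 1)) κ φ D
  refine ⟨N, E, φ ⁻¹' Y, φ ⁻¹' D, ε, h.ne, ?_⟩
  refine ⟨?_, t2 n h.pm, ?_, d1 h.dcl, ?_, ?_, ?_, ?_, ?_, ?_, ?_, ?_, ?_, ?_⟩
  · intro i
    rw [pow_zero]
    exact homE_X _
  · intro y hy
    change φ (ev E y) ∈ Y
    rw [hE]
    exact hy
  · intro a x hx
    change φ (a • x) ∈ D
    rw [map_smul]
    exact h.dcone a _ hx
  · intro y hy
    change φ (ev E y) ∈ D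
    rw [hE]
    exact hy
  · intro y _ hy
    change φ (ev E y) ∉ D
    rw [hE]
    exact hy
  · intro x hx hxD
    exact ⟨φ x, hx, hxD, (hE' x).symm⟩
  · intro y _ _ y' _ _ a ha
    refine ⟨0, a, ?_⟩
    have h1 := congrArg φ ha
    rw [map_smul, hE, hE] at h1
    rw [pow_zero]
    exact h1
  · intro y
    apply φ.injective
    rw [hE, hγ, LinearMap.smul_apply, LinearMap.id_apply, map_smul, hE]
  · intro y _ _ v hv
    rw [← hdE y v, hv, map_zero]
  · intro y _ _ v hv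
    refine ⟨φ v, ?_, ?_⟩
    · have h1 := (t3 _ v).1 hv
      rwa [hE] at h1
    · apply φ.injective
      rw [hdE]
  · intro e' c hc hX hD
    refine ⟨e', fun k => c (e k), by rw [pow_zero, one_mul], ⟨fun k => hc.deg _, ?_⟩, ?_, ?_, ?_⟩
    · intro s t hst h0
      apply hc.ne s t hst
      apply φ.injective
      rw [map_zero]
      exact h0
    · intro s t
      exact hX s t
    · intro s t hst
      exact hD s t hst
    · intro s t
      exact (hE' _).symm
  · intro S hS hcone hSY _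
    obtain ⟨s1, -, -, -⟩ := h3 (Fin (N + 1)) κ φ S
    refine ⟨φ ⁻¹' S, s1 hS, ?_, ?_, ?_, ?_⟩
    · intro a x hx
      change φ (a • x) ∈ S
      rw [map_smul]
      exact hcone a _ hx
    · intro x hx
      exact hSY hx
    · intro x hx
      change φ (ε • x) ∈ S
      rw [map_smul]
      exact hcone ε _ hx
    · intro y _ _
      change φ (ev E y) ∈ S ↔ y ∈ S
      rw [hE]

theorem st_TOWER (h1 : ST_STEP) (h2 : ST_RCOMP) (h3 : ST_TRANS) : ST_TOWER := by
  intro m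
  induction m with
  | zero => exact fun κ _ n Y D γ ε h => tower_zero h3 κ n Y D γ ε h
  | succ m ih =>
    intro κ _ n Y D γ ε h
    have h' : Inp n (2 * 2 ^ m) Y D γ ε := by
      rw [← pow_succ']
      exact h
    obtain ⟨μ, _, P, Y', D', γ', ε', hR, hI⟩ :=
      h1 κ n (2 ^ m) Y D γ ε Nat.one_le_two_pow h'
    obtain ⟨N, E, X', DX, ε'', hε, hR2⟩ := ih μ n Y' D' γ' ε' hI
    refine ⟨N, fun i => aeval P (E i), X', DX, ε'', hε, ?_⟩
    rw [pow_succ]
    exact h2 κ μ (Fin (N + 1)) n 4 (4 ^ m) (2 ^ (m + 1)) Y D γ ε P Y' D' γ' E X' DX _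
      Nat.one_le_two_pow h hR hR2

end Pool.Agent.Helper87.TC
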