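import Pool.Agent.Helper87.TC.Lib

set_option autoImplicit false

namespace Pool.Agent.Helper87.TC

open MvPolynomial Pool.Agent.Helper48.VMRT Pool.Agent.Helper87.VM

/-- exchange of the two groups of variables -/
def upa_phi (κα κβ : Type) : (κβ ⊕ κα → ℂ) ≃ₗ[ℂ] (κα ⊕ κβ → ℂ) :=
  LinearEquiv.funCongrLeft ℂ ℂ (Equiv.sumComm κα κβ)

theorem upa_pl {κα κβ : Type} (y : κβ ⊕ κα → ℂ) : pl (upa_phi κα κβ y) = qr y := rfl

theorem upa_qr {κα κβ : Type} (y : κβ ⊕ κα → ℂ) : qr (upa_phi κα κβ y) = pl y := rfl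

/-- the corresponding exchange of indices -/
def upa_tau (κα κβ : Type) : KK κα κβ ≃ KK κβ κα where
  toFun := Sum.elim (fun a => Sum.inr (a.2, a.1)) (fun a => Sum.inl (a.2, a.1))
  invFun := Sum.elim (fun a => Sum.inr (a.2, a.1)) (fun a => Sum.inl (a.2, a.1))
  left_inv := by
    rintro (⟨I, l⟩ | ⟨i, J⟩) <;> rfl
  right_inv := by
    rintro (⟨I, l⟩ | ⟨i, J⟩) <;> rfl

def upa_Phi (κα κβ : Type) : (KK κβ κα → ℂ) ≃ₗ[ℂ] (KK κα κβ → ℂ) :=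
  LinearEquiv.funCongrLeft ℂ ℂ (upa_tau κα κβ)

theorem upa_inl {κα κβ : Type} (w : KK κβ κα → ℂ) (I : Fin 3 → κα) (l : κβ) :
    upa_Phi κα κβ w (Sum.inl (I, l)) = w (Sum.inr (l, I)) := rfl

theorem upa_inr {κα κβ : Type} (w : KK κβ κα → ℂ) (i : κα) (J : Fin 3 → κβ) :
    upa_Phi κα κβ w (Sum.inr (i, J)) = w (Sum.inl (J, i)) := rfl

theorem upa_rfl_inl {κα κβ : Type} (p : κα → ℂ) (q : κβ → ℂ) (b c : ℂ) (I : Fin 3 → κα)
    (l : κβ) : Theta p q b c (Sum.inl (I, l)) = c * (p (I 0) * p (I 1) * p (I 2)) * q l := rfl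

theorem upa_rfl_inr {κα κβ : Type} (p : κα → ℂ) (q : κβ → ℂ) (b c : ℂ) (i : κα)
    (J : Fin 3 → κβ) : Theta p q b c (Sum.inr (i, J)) = b * p i * (q (J 0) * q (J 1) * q (J 2)) :=
  rfl

theorem upa_comm {κα κβ : Type} (y : κβ ⊕ κα → ℂ) :
    upa_Phi κα κβ (ev Psi y) = ev Psi (upa_phi κα κβ y) := by
  rw [ev_Psi, ev_Psi, upa_pl, upa_qr]
  funext k
  rcases k with ⟨I, l⟩ | ⟨i, J⟩
  · rw [upa_inl, upa_rfl_inr, upa_rfl_inl]
    ring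
  · rw [upa_inr, upa_rfl_inl, upa_rfl_inr]
    ring

theorem upa_sg {κα κβ : Type} (y : κβ ⊕ κα → ℂ) :
    upa_phi κα κβ (sg y) = (-1 : ℂ) • sg (upa_phi κα κβ y) := by
  funext k
  rcases k with i | l
  · change -(qr y i) = (-1 : ℂ) * (qr y i)
    ring
  · change pl y l = (-1 : ℂ) * (-(pl y l))
    ring

theorem st_UPA (h1 : ST_UPB) (h2 : ST_TRANS) : ST_UPA := by
  intro κα κβ _ _ n Y hY hS w hw hw0 hz
  obtain ⟨-, t2, -, -⟩ := h2 (κβ ⊕ κα) (κα ⊕ κβ) (upa_phi κα κβ) Y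
  have hY1 := t2 n hY
  have hS1 : AdCone (upa_phi κα κβ ⁻¹' Y) := by
    refine ⟨hY1.closed, hY1.cone, ?_⟩
    intro y hy
    change upa_phi κα κβ (sg y) ∈ Y
    rw [upa_sg]
    exact hS.cone _ _ (hS.inv _ hy)
  have hcl : Cl (ev Psi '' (upa_phi κα κβ ⁻¹' Y)) =
      upa_Phi κα κβ ⁻¹' (Cl (ev Psi '' Y)) := by
    ext x
    constructor
    · intro hx
      exact Cl_map_linear (T := ev Psi '' Y)
        ((upa_Phi κα κβ : (KK κβ κα → ℂ) ≃ₗ[ℂ] (KK κα κβ → ℂ)) :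
          (KK κβ κα → ℂ) →ₗ[ℂ] (KK κα κβ → ℂ)) (by
          rintro _ ⟨y, hy, rfl⟩
          exact ⟨upa_phi κα κβ y, hy, (upa_comm y).symm⟩) hx
    · intro hx
      have h3 := Cl_map_linear (T := ev Psi '' (upa_phi κα κβ ⁻¹' Y))
        (((upa_Phi κα κβ).symm : (KK κα κβ → ℂ) ≃ₗ[ℂ] (KK κβ κα → ℂ)) :
          (KK κα κβ → ℂ) →ₗ[ℂ] (KK κβ κα → ℂ)) (by
          rintro _ ⟨y, hy, rfl⟩
          refine ⟨(upa_phi κα κβ).symm y, ?_, ?_⟩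
          · change upa_phi κα κβ ((upa_phi κα κβ).symm y) ∈ Y
            rw [LinearEquiv.apply_symm_apply]
            exact hy
          · change _ = (upa_Phi κα κβ).symm (ev Psi y)
            rw [LinearEquiv.eq_symm_apply, upa_comm, LinearEquiv.apply_symm_apply]) hx
      have h4 : ((upa_Phi κα κβ).symm : (KK κα κβ → ℂ) ≃ₗ[ℂ] (KK κβ κα → ℂ))
          (upa_Phi κα κβ x) = x := LinearEquiv.symm_apply_apply _ _
      change (upa_Phi κα κβ).symm (upa_Phi κα κβ x) ∈ _ at h3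
      rwa [h4] at h3
  obtain ⟨w1, rfl⟩ := (upa_Phi κα κβ).surjective w
  have hw1 : w1 ∈ Cl (ev Psi '' (upa_phi κα κβ ⁻¹' Y)) := by
    rw [hcl]
    exact hw
  have hw10 : w1 ≠ 0 := by
    rintro rfl
    exact hw0 (map_zero _)
  have h5 := h1 κβ κα n _ hY1 hS1 w1 hw1 hw10 (by
    rintro ⟨l, I⟩
    exact hz (I, l))
  obtain ⟨-, -, t3, -⟩ := h2 (KK κβ κα) (KK κα κβ) (upa_Phi κα κβ) (Cl (ev Psi '' Y))
  have hmap : tsp (Cl (ev Psi '' Y)) (upa_Phi κα κβ w1) =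
      (tsp (Cl (ev Psi '' (upa_phi κα κβ ⁻¹' Y))) w1).map
        ((upa_Phi κα κβ : (KK κβ κα → ℂ) ≃ₗ[ℂ] (KK κα κβ → ℂ)) :
          (KK κβ κα → ℂ) →ₗ[ℂ] (KK κα κβ → ℂ)) := by
    ext v
    rw [Submodule.mem_map, hcl]
    constructor
    · intro hv
      refine ⟨(upa_Phi κα κβ).symm v, ?_, LinearEquiv.apply_symm_apply _ _⟩
      rw [t3, LinearEquiv.apply_symm_apply]
      exact hv
    · rintro ⟨u, hu, rfl⟩
      exact (t3 w1 u).1 hu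
  rw [hmap, LinearEquiv.finrank_map_eq]
  exact h5

end Pool.Agent.Helper87.TC
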